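import Mathlib

set_option autoImplicit false

open OnePoint

namespace Pool.Agent.Results.MP_c624c9_nt.Counterexample

/-- The map `f_d(x) = (d x + k)/(x + d)` on `ℝ ∪ {∞}`, with `f_d(∞) = d` and `f_d(-d) = ∞`. -/
noncomputable def f (k : ℕ) (d : ℚ) : OnePoint ℝ → OnePoint ℝ
  | ∞ => (((d : ℝ)) : OnePoint ℝ)
  | OnePoint.some x =>
      if x + (d : ℝ) = 0 then ∞ else ((((d : ℝ) * x + k) / (x + d) : ℝ) : OnePoint ℝ)

/-- `R(k,d) = 4 d^2 / (k - d^2)`. -/
def R (k : ℕ) (d : ℚ) : ℚ := 4 * d ^ 2 / ((k : ℚ) - d ^ 2)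

/-- The point `x` of `ℝ ∪ {∞}` is a Pellian fraction for `k`: it equals `p/q` with `p, q > 0`
coprime and `p^2 - k q^2 = 1` or `p^2 - k q^2 = -1`. -/
def IsPellian (k : ℕ) (x : OnePoint ℝ) : Prop :=
  ∃ p q : ℕ, 0 < p ∧ 0 < q ∧ Nat.Coprime p q ∧
    ((p : ℤ) ^ 2 - (k : ℤ) * (q : ℤ) ^ 2 = 1 ∨ (p : ℤ) ^ 2 - (k : ℤ) * (q : ℤ) ^ 2 = -1) ∧
    x = (((p : ℝ) / (q : ℝ) : ℝ) : OnePoint ℝ)

/-- The convergent of index `i` (starting with `i = 0`, the integer part) of the regular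
continued fraction of `√k`. -/
noncomputable def conv (k : ℕ) (i : ℕ) : ℚ := (Real.sqrt (k : ℝ)).convergent i

lemma step {s : ℝ} (hs : s ^ 2 = 375) (P Q P' Q' a : ℤ) (hQ0 : 0 < Q)
    (hQ' : 0 < Q') (hQ : Q * Q' = 375 - P' ^ 2) (hP : P' = a * Q - P)
    (h1 : (a : ℝ) ≤ (P + s) / Q) (h2 : (P + s) / Q < a + 1) (n : ℕ) :
    ((P + s) / Q : ℝ).convergent 0 = a ∧
    ((P + s) / Q : ℝ).convergent (n + 1) = a + (((P' + s) / Q' : ℝ).convergent n)⁻¹ := by
  have hfl : ⌊((P + s) / Q : ℝ)⌋ = a := Int.floor_eq_iff.mpr ⟨h1, h2⟩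
  have hQR : (0 : ℝ) < Q := by exact_mod_cast hQ0
  have hQR' : (0 : ℝ) < Q' := by exact_mod_cast hQ'
  have hQe : (Q : ℝ) * Q' = 375 - (P' : ℝ) ^ 2 := by exact_mod_cast hQ
  have hPe : (P' : ℝ) = a * Q - P := by exact_mod_cast hP
  refine ⟨by rw [Real.convergent_zero, hfl], ?_⟩
  rw [Real.convergent_succ, hfl]
  have hfr : (Int.fract ((P + s) / Q : ℝ))⁻¹ = (P' + s) / Q' := by
    rw [Int.fract, hfl]
    have e1 : ((P + s) / Q : ℝ) - a = (s - P') / Q := by
      rw [hPe]; field_simp; ring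
    have hprod : (s - P') * (s + P') = Q * Q' := by
      rw [hQe]; nlinarith
    have hne : s - P' ≠ 0 := by
      intro h0
      rw [h0, zero_mul] at hprod
      have := mul_pos hQR hQR'
      linarith
    rw [e1, inv_div, div_eq_div_iff hne hQR'.ne']
    nlinarith
  rw [hfr]

lemma sqrt_sq_375 : (Real.sqrt 375) ^ 2 = 375 := Real.sq_sqrt (by norm_num)

lemma sqrt_pos_375 : 0 < Real.sqrt 375 := Real.sqrt_pos.mpr (by norm_num)

lemma sqrt_gt : (193649 / 10000 : ℝ) < Real.sqrt 375 := by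
  rw [Real.lt_sqrt (by norm_num)]; norm_num

lemma sqrt_lt : Real.sqrt 375 < (193650 / 10000 : ℝ) := by
  rw [Real.sqrt_lt' (by norm_num)]; norm_num


lemma st0 (n : ℕ) :
    (((0 : ℤ) + Real.sqrt 375) / (1 : ℤ) : ℝ).convergent 0 = (19 : ℤ) ∧
    (((0 : ℤ) + Real.sqrt 375) / (1 : ℤ) : ℝ).convergent (n + 1) =
      (19 : ℤ) + ((((19 : ℤ) + Real.sqrt 375) / (14 : ℤ) : ℝ).convergent n)⁻¹ := by
  have h1 := sqrt_gt
  have h2 := sqrt_lt
  refine step sqrt_sq_375 0 1 19 14 19 (by norm_num) (by norm_num) (by norm_num)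
    (by norm_num) ?_ ?_ n
  · push_cast
    rw [le_div_iff₀ (by norm_num)]
    linarith
  · push_cast
    rw [div_lt_iff₀ (by norm_num)]
    linarith

lemma st1 (n : ℕ) :
    (((19 : ℤ) + Real.sqrt 375) / (14 : ℤ) : ℝ).convergent 0 = (2 : ℤ) ∧
    (((19 : ℤ) + Real.sqrt 375) / (14 : ℤ) : ℝ).convergent (n + 1) =
      (2 : ℤ) + ((((9 : ℤ) + Real.sqrt 375) / (21 : ℤ) : ℝ).convergent n)⁻¹ := by
  have h1 := sqrt_gt
  have h2 := sqrt_lt
  refine step sqrt_sq_375 19 14 9 21 2 (by norm_num) (by norm_num) (by norm_num)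
    (by norm_num) ?_ ?_ n
  · push_cast
    rw [le_div_iff₀ (by norm_num)]
    linarith
  · push_cast
    rw [div_lt_iff₀ (by norm_num)]
    linarith

lemma st2 (n : ℕ) :
    (((9 : ℤ) + Real.sqrt 375) / (21 : ℤ) : ℝ).convergent 0 = (1 : ℤ) ∧
    (((9 : ℤ) + Real.sqrt 375) / (21 : ℤ) : ℝ).convergent (n + 1) =
      (1 : ℤ) + ((((12 : ℤ) + Real.sqrt 375) / (11 : ℤ) : ℝ).convergent n)⁻¹ := by
  have h1 := sqrt_gt
  have h2 := sqrt_lt
  refine step sqrt_sq_375 9 21 12 11 1 (by norm_num) (by norm_num) (by norm_num)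
    (by norm_num) ?_ ?_ n
  · push_cast
    rw [le_div_iff₀ (by norm_num)]
    linarith
  · push_cast
    rw [div_lt_iff₀ (by norm_num)]
    linarith

lemma st3 (n : ℕ) :
    (((12 : ℤ) + Real.sqrt 375) / (11 : ℤ) : ℝ).convergent 0 = (2 : ℤ) ∧
    (((12 : ℤ) + Real.sqrt 375) / (11 : ℤ) : ℝ).convergent (n + 1) =
      (2 : ℤ) + ((((10 : ℤ) + Real.sqrt 375) / (25 : ℤ) : ℝ).convergent n)⁻¹ := by
  have h1 := sqrt_gt
  have h2 := sqrt_lt
  refine step sqrt_sq_375 12 11 10 25 2 (by norm_num) (by norm_num) (by norm_num)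
    (by norm_num) ?_ ?_ n
  · push_cast
    rw [le_div_iff₀ (by norm_num)]
    linarith
  · push_cast
    rw [div_lt_iff₀ (by norm_num)]
    linarith

lemma st4 (n : ℕ) :
    (((10 : ℤ) + Real.sqrt 375) / (25 : ℤ) : ℝ).convergent 0 = (1 : ℤ) ∧
    (((10 : ℤ) + Real.sqrt 375) / (25 : ℤ) : ℝ).convergent (n + 1) =
      (1 : ℤ) + ((((15 : ℤ) + Real.sqrt 375) / (6 : ℤ) : ℝ).convergent n)⁻¹ := by
  have h1 := sqrt_gt
  have h2 := sqrt_lt
  refine step sqrt_sq_375 10 25 15 6 1 (by norm_num) (by norm_num) (by norm_num)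
    (by norm_num) ?_ ?_ n
  · push_cast
    rw [le_div_iff₀ (by norm_num)]
    linarith
  · push_cast
    rw [div_lt_iff₀ (by norm_num)]
    linarith

lemma st5 (n : ℕ) :
    (((15 : ℤ) + Real.sqrt 375) / (6 : ℤ) : ℝ).convergent 0 = (5 : ℤ) ∧
    (((15 : ℤ) + Real.sqrt 375) / (6 : ℤ) : ℝ).convergent (n + 1) =
      (5 : ℤ) + ((((15 : ℤ) + Real.sqrt 375) / (25 : ℤ) : ℝ).convergent n)⁻¹ := by
  have h1 := sqrt_gt
  have h2 := sqrt_lt
  refine step sqrt_sq_375 15 6 15 25 5 (by norm_num) (by norm_num) (by norm_num)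
    (by norm_num) ?_ ?_ n
  · push_cast
    rw [le_div_iff₀ (by norm_num)]
    linarith
  · push_cast
    rw [div_lt_iff₀ (by norm_num)]
    linarith

lemma st6 (n : ℕ) :
    (((15 : ℤ) + Real.sqrt 375) / (25 : ℤ) : ℝ).convergent 0 = (1 : ℤ) ∧
    (((15 : ℤ) + Real.sqrt 375) / (25 : ℤ) : ℝ).convergent (n + 1) =
      (1 : ℤ) + ((((10 : ℤ) + Real.sqrt 375) / (11 : ℤ) : ℝ).convergent n)⁻¹ := by
  have h1 := sqrt_gt
  have h2 := sqrt_lt
  refine step sqrt_sq_375 15 25 10 11 1 (by norm_num) (by norm_num) (by norm_num)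
    (by norm_num) ?_ ?_ n
  · push_cast
    rw [le_div_iff₀ (by norm_num)]
    linarith
  · push_cast
    rw [div_lt_iff₀ (by norm_num)]
    linarith

lemma st7 (n : ℕ) :
    (((10 : ℤ) + Real.sqrt 375) / (11 : ℤ) : ℝ).convergent 0 = (2 : ℤ) ∧
    (((10 : ℤ) + Real.sqrt 375) / (11 : ℤ) : ℝ).convergent (n + 1) =
      (2 : ℤ) + ((((12 : ℤ) + Real.sqrt 375) / (21 : ℤ) : ℝ).convergent n)⁻¹ := by
  have h1 := sqrt_gt
  have h2 := sqrt_lt
  refine step sqrt_sq_375 10 11 12 21 2 (by norm_num) (by norm_num) (by norm_num)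
    (by norm_num) ?_ ?_ n
  · push_cast
    rw [le_div_iff₀ (by norm_num)]
    linarith
  · push_cast
    rw [div_lt_iff₀ (by norm_num)]
    linarith

lemma st8 (n : ℕ) :
    (((12 : ℤ) + Real.sqrt 375) / (21 : ℤ) : ℝ).convergent 0 = (1 : ℤ) ∧
    (((12 : ℤ) + Real.sqrt 375) / (21 : ℤ) : ℝ).convergent (n + 1) =
      (1 : ℤ) + ((((9 : ℤ) + Real.sqrt 375) / (14 : ℤ) : ℝ).convergent n)⁻¹ := by
  have h1 := sqrt_gt
  have h2 := sqrt_lt
  refine step sqrt_sq_375 12 21 9 14 1 (by norm_num) (by norm_num) (by norm_num)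
    (by norm_num) ?_ ?_ n
  · push_cast
    rw [le_div_iff₀ (by norm_num)]
    linarith
  · push_cast
    rw [div_lt_iff₀ (by norm_num)]
    linarith

lemma st9 (n : ℕ) :
    (((9 : ℤ) + Real.sqrt 375) / (14 : ℤ) : ℝ).convergent 0 = (2 : ℤ) ∧
    (((9 : ℤ) + Real.sqrt 375) / (14 : ℤ) : ℝ).convergent (n + 1) =
      (2 : ℤ) + ((((19 : ℤ) + Real.sqrt 375) / (1 : ℤ) : ℝ).convergent n)⁻¹ := by
  have h1 := sqrt_gt
  have h2 := sqrt_lt
  refine step sqrt_sq_375 9 14 19 1 2 (by norm_num) (by norm_num) (by norm_num)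
    (by norm_num) ?_ ?_ n
  · push_cast
    rw [le_div_iff₀ (by norm_num)]
    linarith
  · push_cast
    rw [div_lt_iff₀ (by norm_num)]
    linarith

lemma conv_eq (i : ℕ) :
    conv 375 i = (((0 : ℤ) + Real.sqrt 375) / (1 : ℤ) : ℝ).convergent i := by
  have h : (Real.sqrt ((375 : ℕ) : ℝ)) = (((0 : ℤ) + Real.sqrt 375) / (1 : ℤ) : ℝ) := by
    push_cast
    simp
  unfold conv
  rw [h]

lemma conv0 : conv 375 0 = 19 / 1 := by
  rw [conv_eq, (st0 0).1]
  norm_num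

lemma conv1 : conv 375 1 = 39 / 2 := by
  rw [conv_eq, (st0 0).2, (st1 0).1]
  norm_num

lemma conv2 : conv 375 2 = 58 / 3 := by
  rw [conv_eq, (st0 1).2, (st1 0).2, (st2 0).1]
  norm_num

lemma conv3 : conv 375 3 = 155 / 8 := by
  rw [conv_eq, (st0 2).2, (st1 1).2, (st2 0).2, (st3 0).1]
  norm_num

lemma conv4 : conv 375 4 = 213 / 11 := by
  rw [conv_eq, (st0 3).2, (st1 2).2, (st2 1).2, (st3 0).2, (st4 0).1]
  norm_num

lemma conv5 : conv 375 5 = 1220 / 63 := by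
  rw [conv_eq, (st0 4).2, (st1 3).2, (st2 2).2, (st3 1).2, (st4 0).2, (st5 0).1]
  norm_num

lemma conv6 : conv 375 6 = 1433 / 74 := by
  rw [conv_eq, (st0 5).2, (st1 4).2, (st2 3).2, (st3 2).2, (st4 1).2, (st5 0).2, (st6 0).1]
  norm_num

lemma conv7 : conv 375 7 = 4086 / 211 := by
  rw [conv_eq, (st0 6).2, (st1 5).2, (st2 4).2, (st3 3).2, (st4 2).2, (st5 1).2, (st6 0).2, (st7 0).1]
  norm_num

lemma conv8 : conv 375 8 = 5519 / 285 := by
  rw [conv_eq, (st0 7).2, (st1 6).2, (st2 5).2, (st3 4).2, (st4 3).2, (st5 2).2, (st6 1).2, (st7 0).2, (st8 0).1]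
  norm_num

lemma conv9 : conv 375 9 = 15124 / 781 := by
  rw [conv_eq, (st0 8).2, (st1 7).2, (st2 6).2, (st3 5).2, (st4 4).2, (st5 3).2, (st6 2).2, (st7 1).2, (st8 0).2, (st9 0).1]
  norm_num


lemma not_pell (A B : ℕ) (hB : 0 < B) (hco : Nat.Coprime A B)
    (h1 : (A : ℤ) ^ 2 - 375 * (B : ℤ) ^ 2 ≠ 1) (h2 : (A : ℤ) ^ 2 - 375 * (B : ℤ) ^ 2 ≠ -1) :
    ¬ IsPellian 375 ((((A : ℝ) / (B : ℝ) : ℝ)) : OnePoint ℝ) := by
  rintro ⟨p, q, hp, hq, hpq, hN, hx⟩
  have hx' : (A : ℝ) / (B : ℝ) = (p : ℝ) / (q : ℝ) := OnePoint.coe_injective hx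
  have hBR : (B : ℝ) ≠ 0 := by positivity
  have hqR : (q : ℝ) ≠ 0 := by positivity
  have hmul : A * q = p * B := by
    rw [div_eq_div_iff hBR hqR] at hx'
    exact_mod_cast hx'
  have hBq : B ∣ q := by
    have : B ∣ A * q := ⟨p, by rw [hmul]; ring⟩
    exact (Nat.Coprime.dvd_mul_left hco.symm).mp this
  have hqB : q ∣ B := by
    have : q ∣ p * B := ⟨A, by rw [← hmul]; ring⟩
    exact (Nat.Coprime.dvd_mul_left hpq.symm).mp this
  have hBeq : B = q := Nat.dvd_antisymm hBq hqB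
  subst hBeq
  have hAeq : A = p := Nat.eq_of_mul_eq_mul_right hq hmul
  subst hAeq
  push_cast at hN
  rcases hN with h | h
  · exact h1 h
  · exact h2 h

lemma f_infty (d : ℚ) : f 375 d ∞ = (((d : ℝ)) : OnePoint ℝ) := rfl

lemma f_some (d : ℚ) (x y : ℝ) (h : x + (d : ℝ) ≠ 0)
    (hy : ((d : ℝ) * x + 375) / (x + d) = y) :
    f 375 d (x : OnePoint ℝ) = ((y : ℝ) : OnePoint ℝ) := by
  have : f 375 d (x : OnePoint ℝ) =
      if x + (d : ℝ) = 0 then ∞ else ((((d : ℝ) * x + (375 : ℕ)) / (x + d) : ℝ) : OnePoint ℝ) := rfl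
  rw [this, if_neg h]
  push_cast
  rw [hy]

lemma it1 : (f 375 (155 / 8))^[1] ∞ = ((((155 : ℕ) : ℝ) / ((8 : ℕ) : ℝ) : ℝ) : OnePoint ℝ) := by
  rw [Function.iterate_one, f_infty]
  push_cast
  rfl

lemma it2 : (f 375 (155 / 8))^[2] ∞ =
    ((((9605 : ℕ) : ℝ) / ((496 : ℕ) : ℝ) : ℝ) : OnePoint ℝ) := by
  rw [Function.iterate_succ_apply', it1]
  exact f_some _ _ _ (by push_cast; norm_num) (by push_cast; norm_num)

lemma it3 : (f 375 (155 / 8))^[3] ∞ =
    ((((595355 : ℕ) : ℝ) / ((30744 : ℕ) : ℝ) : ℝ) : OnePoint ℝ) := by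
  rw [Function.iterate_succ_apply', it2]
  exact f_some _ _ _ (by push_cast; norm_num) (by push_cast; norm_num)

lemma it4 : (f 375 (155 / 8))^[4] ∞ =
    ((((36902405 : ℕ) : ℝ) / ((1905632 : ℕ) : ℝ) : ℝ) : OnePoint ℝ) := by
  rw [Function.iterate_succ_apply', it3]
  exact f_some _ _ _ (by push_cast; norm_num) (by push_cast; norm_num)

lemma it5 : (f 375 (155 / 8))^[5] ∞ =
    ((((457470751 : ℕ) : ℝ) / ((23623688 : ℕ) : ℝ) : ℝ) : OnePoint ℝ) := by
  rw [Function.iterate_succ_apply', it4]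
  exact f_some _ _ _ (by push_cast; norm_num) (by push_cast; norm_num)

/-- Q1 fails for `k = 375`: here `d(k) = 155/8` is the convergent of index `3`, the first
iterate `f_d^n(∞)` (`n ≥ 1`) that is Pellian is the fifth one, and it differs from the first
Pellian convergent of `√375`, which is the convergent of index `9`. -/
theorem result :
    ∃ k i n j : ℕ, k = 375 ∧ i = 3 ∧ n = 5 ∧ j = 9 ∧ ¬ IsSquare k ∧
      IsLeast {i : ℕ | ∃ z : ℤ, R k (conv k i) = (z : ℚ)} i ∧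
      IsLeast {n : ℕ | 1 ≤ n ∧ IsPellian k ((f k (conv k i))^[n] ∞)} n ∧
      IsLeast {j : ℕ | IsPellian k (((conv k j : ℝ)) : OnePoint ℝ)} j ∧
      (f k (conv k i))^[n] ∞ ≠ (((conv k j : ℝ)) : OnePoint ℝ) := by
  refine ⟨375, 3, 5, 9, rfl, rfl, rfl, rfl, ?_, ⟨?_, ?_⟩, ⟨⟨by norm_num, ?_⟩, ?_⟩, ⟨?_, ?_⟩, ?_⟩
  · rintro ⟨r, hr⟩
    have h1 : r < 20 := by nlinarith
    have h2 : 19 < r := by nlinarith
    omega
  · exact ⟨-3844, by rw [conv3]; norm_num [R]⟩
  · rintro i ⟨z, hz⟩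
    by_contra hlt
    push Not at hlt
    interval_cases i
    · rw [conv0] at hz
      have h : ((7 * z : ℤ) : ℚ) = ((722 : ℤ) : ℚ) := by
        push_cast; rw [← hz]; norm_num [R]
      have h' : 7 * z = 722 := by exact_mod_cast h
      omega
    · rw [conv1] at hz
      have h : ((7 * z : ℤ) : ℚ) = ((-2028 : ℤ) : ℚ) := by
        push_cast; rw [← hz]; norm_num [R]
      have h' : 7 * z = -2028 := by exact_mod_cast h
      omega
    · rw [conv2] at hz
      have h : ((11 * z : ℤ) : ℚ) = ((13456 : ℤ) : ℚ) := by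
        push_cast; rw [← hz]; norm_num [R]
      have h' : 11 * z = 13456 := by exact_mod_cast h
      omega
  · rw [conv3, it5]
    exact ⟨457470751, 23623688, by norm_num, by norm_num, by norm_num, Or.inl (by norm_num), rfl⟩
  · rintro n ⟨hn1, hn⟩
    by_contra hlt
    push Not at hlt
    rw [conv3] at hn
    interval_cases n
    · rw [it1] at hn
      exact not_pell 155 8 (by norm_num) (by norm_num) (by norm_num) (by norm_num) hn
    · rw [it2] at hn
      exact not_pell 9605 496 (by norm_num) (by norm_num) (by norm_num) (by norm_num) hn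
    · rw [it3] at hn
      exact not_pell 595355 30744 (by norm_num) (by norm_num) (by norm_num) (by norm_num) hn
    · rw [it4] at hn
      exact not_pell 36902405 1905632 (by norm_num) (by norm_num) (by norm_num) (by norm_num) hn
  · refine ⟨15124, 781, by norm_num, by norm_num, by norm_num, Or.inl (by norm_num), ?_⟩
    rw [conv9]
    push_cast
    rfl
  · intro j hj
    by_contra hlt
    push Not at hlt
    have key : ∀ (A B : ℕ), conv 375 j = (A : ℚ) / (B : ℚ) → 0 < B → Nat.Coprime A B →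
        (A : ℤ) ^ 2 - 375 * (B : ℤ) ^ 2 ≠ 1 → (A : ℤ) ^ 2 - 375 * (B : ℤ) ^ 2 ≠ -1 → False := by
      intro A B h hB hco h1 h2
      have hj' : IsPellian 375 (((conv 375 j : ℝ)) : OnePoint ℝ) := hj
      rw [h] at hj'
      push_cast at hj'
      exact not_pell A B hB hco h1 h2 hj'
    interval_cases j
    · exact key 19 1 (by rw [conv0]; norm_num) (by norm_num) (by norm_num) (by norm_num)
        (by norm_num)
    · exact key 39 2 (by rw [conv1]; norm_num) (by norm_num) (by norm_num) (by norm_num)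
        (by norm_num)
    · exact key 58 3 (by rw [conv2]; norm_num) (by norm_num) (by norm_num) (by norm_num)
        (by norm_num)
    · exact key 155 8 (by rw [conv3]; norm_num) (by norm_num) (by norm_num) (by norm_num)
        (by norm_num)
    · exact key 213 11 (by rw [conv4]; norm_num) (by norm_num) (by norm_num) (by norm_num)
        (by norm_num)
    · exact key 1220 63 (by rw [conv5]; norm_num) (by norm_num) (by norm_num) (by norm_num)
        (by norm_num)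
    · exact key 1433 74 (by rw [conv6]; norm_num) (by norm_num) (by norm_num) (by norm_num)
        (by norm_num)
    · exact key 4086 211 (by rw [conv7]; norm_num) (by norm_num) (by norm_num) (by norm_num)
        (by norm_num)
    · exact key 5519 285 (by rw [conv8]; norm_num) (by norm_num) (by norm_num) (by norm_num)
        (by norm_num)
  · rw [conv3, it5, conv9]
    intro h
    have h' := OnePoint.coe_injective h
    push_cast at h'
    norm_num at h'

end Pool.Agent.Results.MP_c624c9_nt.Counterexample
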